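import Pool.Agent.ZES.StmtsF

/-!
# Squad ZES, row MUL: the multiplication of theta functions
-/

set_option autoImplicit false

namespace Pool.Agent.ZES.H94

open Pool.Agent.ZES Pool.Agent.THS
open scoped BigOperators

theorem sgn_zero {g : ℕ} (b : Fin g → ZMod 2) : sgn b 0 = 1 := by
  unfold sgn
  simp

/-- **Row MUL.** -/
theorem mul (hORT : Pool.Agent.THS.OrtStatement) (hVTF : VtfStmt) (hSPN : SpnStmt)
    (hCHS : ChsStmt) (hUVL : UvlStmt) (hNVT : NvtStmt) : MulStmt := by
  intro g τ hτ e he he2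
  have he1 : 1 ≤ e := by omega
  -- the partial sums are products
  have hS : ∀ (b : Fin g → ZMod 2) (k : Fin g → ℤ),
      (∑ c : Fin g → ZMod 2, (sgn b c : ℂ) •
        vt τ (4 * e) (fun r => k r + 2 * (e : ℤ) * ((c r).val : ℤ))) ∈
          RR τ (2 * e) * RR τ (2 * e) := by
    intro b k
    obtain ⟨s, hs⟩ := hNVT g τ hτ e he he2
      (fun r => ((∑ j, τ r j * (k j : ℂ)) + ((b r).val : ℂ)) / (2 * (e : ℂ)))
    obtain ⟨u, hu, hU⟩ := hUVL g τ hτ e he1 b k s
    obtain ⟨U, hUdef⟩ : ∃ U : ℂ, U = u * vt τ e s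
      (fun r => ((∑ j, τ r j * (k j : ℂ)) + ((b r).val : ℂ)) / (2 * (e : ℂ))) := ⟨_, rfl⟩
    have hU0 : U ≠ 0 := by
      rw [hUdef]
      exact mul_ne_zero hu hs
    have hmem : (∑ c : Fin g → ZMod 2, (sgn b c : ℂ) •
        (vt τ (2 * e) (fun r => (k r + s r) + (e : ℤ) * ((c r).val : ℤ)) *
          vt τ (2 * e) (fun r => (-s r) + (e : ℤ) * ((c r).val : ℤ)))) ∈
            RR τ (2 * e) * RR τ (2 * e) := by
      refine Submodule.sum_mem _ fun c _ => Submodule.smul_mem _ _ (Submodule.mul_mem_mul ?_ ?_)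
      · exact (hVTF g τ hτ (2 * e) (by omega) _).1
      · exact (hVTF g τ hτ (2 * e) (by omega) _).1
    have hEq : (∑ c : Fin g → ZMod 2, (sgn b c : ℂ) •
        vt τ (4 * e) (fun r => k r + 2 * (e : ℤ) * ((c r).val : ℤ))) =
        U⁻¹ • ∑ c : Fin g → ZMod 2, (sgn b c : ℂ) •
        (vt τ (2 * e) (fun r => (k r + s r) + (e : ℤ) * ((c r).val : ℤ)) *
          vt τ (2 * e) (fun r => (-s r) + (e : ℤ) * ((c r).val : ℤ))) := by
      funext x
      have h := hCHS g τ hτ e he1 b (fun r => k r + s r) (fun r => -s r) x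
      have h1 : ∀ c : Fin g → ZMod 2,
          (fun r => (k r + s r) + -s r + 2 * (e : ℤ) * ((c r).val : ℤ)) =
          fun r => k r + 2 * (e : ℤ) * ((c r).val : ℤ) := by
        intro c
        funext r
        ring
      have h2 : ∀ c : Fin g → ZMod 2,
          (fun r => (k r + s r) - -s r + 2 * (e : ℤ) * ((c r).val : ℤ)) =
          fun r => k r + 2 * s r + 2 * (e : ℤ) * ((c r).val : ℤ) := by
        intro c
        funext r
        ring
      simp only [h1, h2] at h
      rw [hU, ← hUdef] at h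
      simp only [Finset.sum_apply, Pi.smul_apply, Pi.mul_apply, smul_eq_mul]
      rw [h, mul_comm (∑ c : Fin g → ZMod 2, _) U, ← mul_assoc, inv_mul_cancel₀ hU0, one_mul]
    rw [hEq]
    exact Submodule.smul_mem _ _ hmem
  -- the standard theta functions
  have hvt : ∀ k : Fin g → ℤ, vt τ (4 * e) k ∈ RR τ (2 * e) * RR τ (2 * e) := by
    intro k
    have h1 : (∑ b : Fin g → ZMod 2, ∑ c : Fin g → ZMod 2, (sgn b c : ℂ) •
        vt τ (4 * e) (fun r => k r + 2 * (e : ℤ) * ((c r).val : ℤ))) =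
        ((2 : ℂ) ^ g) • vt τ (4 * e) k := by
      rw [Finset.sum_comm]
      have h2 : ∀ c : Fin g → ZMod 2, (∑ b : Fin g → ZMod 2, (sgn b c : ℂ) •
          vt τ (4 * e) (fun r => k r + 2 * (e : ℤ) * ((c r).val : ℤ))) =
          if c = 0 then ((2 : ℂ) ^ g) • vt τ (4 * e) k else 0 := by
        intro c
        rw [← Finset.sum_smul]
        have h3 : (∑ b : Fin g → ZMod 2, (sgn b c : ℂ)) =
            if c = 0 then (2 : ℂ) ^ g else 0 := by
          have h4 := hORT g c 0
          simp only [sgn_zero, mul_one] at h4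
          have h5 : ((∑ b : Fin g → ZMod 2, sgn b c : ℤ) : ℂ) =
              (((if c = 0 then (2 : ℤ) ^ g else 0) : ℤ) : ℂ) := by rw [h4]
          push_cast at h5
          exact h5
        rw [h3]
        by_cases hc : c = 0
        · rw [if_pos hc, if_pos hc, hc]
          congr 2
          funext r
          simp
        · rw [if_neg hc, if_neg hc, zero_smul]
      rw [Finset.sum_congr rfl fun c _ => h2 c, Finset.sum_ite_eq' Finset.univ (0 : Fin g → ZMod 2),
        if_pos (Finset.mem_univ _)]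
    have h6 : ((2 : ℂ) ^ g) • vt τ (4 * e) k ∈ RR τ (2 * e) * RR τ (2 * e) := by
      rw [← h1]
      exact Submodule.sum_mem _ fun b _ => hS b k
    have h7 := Submodule.smul_mem (RR τ (2 * e) * RR τ (2 * e)) (((2 : ℂ) ^ g)⁻¹) h6
    rwa [smul_smul, inv_mul_cancel₀ (pow_ne_zero g two_ne_zero), one_smul] at h7
  intro F hF
  obtain ⟨c, hc⟩ := hSPN g τ hτ (4 * e) (by omega) F hF
  have hFs : F = ∑ j : Fin g → Fin (4 * e), c j • vt τ (4 * e) (fun i => ((j i).val : ℤ)) := by
    funext x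
    simp only [Finset.sum_apply, Pi.smul_apply, smul_eq_mul]
    exact hc x
  rw [hFs]
  exact Submodule.sum_mem _ fun j _ => Submodule.smul_mem _ _ (hvt _)

end Pool.Agent.ZES.H94
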