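import Pool.Agent.ZES.StmtsG

/-!
# Squad ZES, row ODE: a linear system with zero initial value
-/

set_option autoImplicit false

namespace Pool.Agent.ZES.H94

open Pool.Agent.ZES
open scoped BigOperators

/-- The order of a finite sum is at least `n` if the orders of all summands are. -/
theorem le_order_sum {ι : Type*} (S : Finset ι) (F : ι → ℂ → ℂ) (n : ℕ∞)
    (h : ∀ i ∈ S, n ≤ analyticOrderAt (F i) 0) : n ≤ analyticOrderAt (∑ i ∈ S, F i) 0 := by
  classical
  induction S using Finset.induction_on with
  | empty =>
    rw [Finset.sum_empty]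
    have h0 : analyticOrderAt (0 : ℂ → ℂ) 0 = ⊤ := by
      rw [analyticOrderAt_eq_top]
      exact Filter.Eventually.of_forall fun _ => rfl
    rw [h0]
    exact le_top
  | insert i S hi ih =>
    rw [Finset.sum_insert hi]
    refine le_trans (le_min (h i (Finset.mem_insert_self i S)) ?_) le_analyticOrderAt_add
    exact ih fun j hj => h j (Finset.mem_insert_of_mem hj)

/-- **Row ODE.** A linear system with zero initial value. -/
theorem ode : OdeStmt := by
  intro s u a c hu ha hc ha0 hu0 hde
  have hua : ∀ i z, AnalyticAt ℂ (u i) z := fun i z => (hu i).analyticAt z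
  have haa : AnalyticAt ℂ a 0 := ha.analyticAt 0
  have hca : ∀ i j, AnalyticAt ℂ (c i j) 0 := fun i j => (hc i j).analyticAt 0
  have ha0' : analyticOrderAt a 0 = 0 := haa.analyticOrderAt_eq_zero.2 ha0
  have key : ∀ n : ℕ, ∀ i, (n : ℕ∞) ≤ analyticOrderAt (u i) 0 := by
    intro n
    induction n with
    | zero =>
      intro i
      simp
    | succ n ih =>
      intro i
      rw [Nat.cast_add_one, ← analyticOrderAt_deriv_ge_iff (hua i 0) (hu0 i)]
      have h1 : a * deriv (u i) = ∑ j, c i j * u j := by
        funext t
        simp only [Pi.mul_apply, Finset.sum_apply]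
        exact hde i t
      have h2 : analyticOrderAt (a * deriv (u i)) 0 = analyticOrderAt (deriv (u i)) 0 := by
        rw [analyticOrderAt_mul haa (hua i 0).deriv, ha0', zero_add]
      rw [← h2, h1]
      apply le_order_sum
      intro j _
      rw [analyticOrderAt_mul (hca i j) (hua j 0)]
      exact le_trans (ih j) le_add_self
  intro i t
  have h3 : analyticOrderAt (u i) 0 = ⊤ := ENat.eq_top_iff_forall_ge.2 fun n => key n i
  have h4 : u i = 0 := (AnalyticOnNhd.analyticOrderAt_eq_top_iff_eq_zero 0 (hua i)).1 h3
  rw [h4]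
  rfl

end Pool.Agent.ZES.H94
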